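import Pool.Agent.Q68.PM.Main

/-!
# The `p`-metric mean dimension of a sofic action equals its metric mean dimension

Let `G` be a countable group with a sofic approximation sequence `σ`, acting continuously on a compact
metrizable space `X`. Then `mdim_{Σ, M, p} (X, G) = mdim_{Σ, M} (X, G)` for all `1 ≤ p ≤ ∞`.

Idea of the proof. For a dynamically generating continuous pseudometric `ρ` put
`ρ' (x, y) = ∑ 2^{-(n+1)} |ρ (x, x_n) - ρ (y, x_n)|` with a dense sequence `x_n` (Lindenstrauss and
Tsukamoto). Then `ρ' ≤ ρ`, it has the same kernel, so it is dynamically generating as well, and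
`X` is the union of `exp (O (log (1/ε)²))` pieces of `ρ'`-diameter `< ε`. If the `ρ_p`-distance of
`φ` and `ψ` is less than `ε' = ε^{1+γ}`, then `ρ' (φ j, ψ j) < ε/2` but for a proportion of at most
`η = 2 ε^γ` of the `j`; to know `φ` up to `ε` for `ρ'_∞` it suffices to know, in addition to a nearby
point `ψ` of a maximal `ε'`-separated set for `ρ_p`, the set of the other `j` and the pieces of `φ j`
there. This costs a factor `exp (o (d log (1/ε)))`. Hence
`mdim_{Σ, ∞} (ρ') ≤ (1 + γ) mdim_{Σ, p} (ρ) + γ` for all `γ > 0`.
-/

set_option autoImplicit false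

namespace Pool.Agent.Results.MP_9d0111_an.PMetric

open Pool.Agent.Q68.PM

/-- For every countable group `G`, every sofic approximation sequence `σ` for `G`, every continuous
action of `G` on a compact metrizable space `X` and every `1 ≤ p ≤ ∞`, the `p`-metric mean dimension
equals the sofic metric mean dimension. -/
theorem result (G : Type) [Group G] [Countable G] (d : ℕ → ℕ)
    (σ : ∀ i, G → Equiv.Perm (Fin (d i))) (hσ : IsSoficApprox σ)
    (X : Type) [TopologicalSpace X] [CompactSpace X] [TopologicalSpace.MetrizableSpace X]
    [MulAction G X] [ContinuousConstSMul G X] (p : ENNReal) (hp : 1 ≤ p) :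
    mdimM X σ p = mdimM X σ ⊤ :=
  main G X d σ hσ p hp

end Pool.Agent.Results.MP_9d0111_an.PMetric
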